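import Pool.Agent.GRA.StmtsC

/-!
# Row CPR of the squad GRA (problem MP_3b0ba7_pr)
-/

open MeasureTheory Matrix Finset
open scoped ComplexConjugate

namespace Pool.Agent.GRA.H86

open Pool.Agent.Helper64_FR Pool.Agent.GRA

theorem cpr : CPRStmt := by
  intro n E _ _ S f₀ hf₀ i j hij f
  set u := S.u f₀ i j with hu
  have hu' : u = f₀ - S.P i j f₀ := by
    rw [hu]; unfold Sys.u; rw [if_neg hij]
  let L : E →ₗᵢ[ℂ] E := ⟨S.s (Equiv.swap i j), S.iso _⟩
  have hL : ∀ x, L x = S.s (Equiv.swap i j) x := fun x => rfl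
  have hin : ∀ x y, (inner ℂ (S.s (Equiv.swap i j) x) (S.s (Equiv.swap i j) y) : ℂ)
      = inner ℂ x y := by
    intro x y
    rw [← hL, ← hL]
    exact L.inner_map_map x y
  set h := f - S.P i j f with hh
  have hsh : S.s (Equiv.swap i j) h = S.s (Equiv.swap i j) f - S.P i j f := by
    rw [hh, map_sub, S.fix]
  have hd : h - S.s (Equiv.swap i j) h = f - S.s (Equiv.swap i j) f := by
    rw [hsh, hh]; abel
  have hsu : S.s (Equiv.swap i j) u = u := by
    rw [hu', map_sub, S.fix, hf₀]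
  have hPu : S.P i j u = 0 := by
    rw [hu', map_sub, S.idem, sub_self]
  have huf : (inner ℂ u h : ℂ) = inner ℂ u f := by
    have h1 : (inner ℂ u (S.P i j f) : ℂ) = 0 := by
      rw [← S.symm, hPu, inner_zero_left]
    rw [hh, inner_sub_right, h1, sub_zero]
  have hus : (inner ℂ u (S.s (Equiv.swap i j) h) : ℂ) = inner ℂ u f := by
    have h1 := hin u h
    rw [hsu] at h1
    rw [h1, huf]
  have hue : (inner ℂ u (h + S.s (Equiv.swap i j) h) : ℂ) = 2 * inner ℂ u f := by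
    rw [inner_add_right, huf, hus]; ring
  have hc : ‖(inner ℂ u (h + S.s (Equiv.swap i j) h) : ℂ)‖ ≤
      ‖u‖ * ‖h + S.s (Equiv.swap i j) h‖ := norm_inner_le_norm _ _
  have hpar := parallelogram_law_with_norm ℂ h (S.s (Equiv.swap i j) h)
  have hn : ‖S.s (Equiv.swap i j) h‖ = ‖h‖ := S.iso _ _
  rw [hn, hd] at hpar
  rw [hue, norm_mul] at hc
  have h2 : ‖(2 : ℂ)‖ = 2 := by norm_num
  rw [h2] at hc
  have hc2 : (2 * ‖(inner ℂ u f : ℂ)‖) ^ 2 ≤ (‖u‖ * ‖h + S.s (Equiv.swap i j) h‖) ^ 2 :=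
    pow_le_pow_left₀ (by positivity) hc 2
  set a := ‖f - S.s (Equiv.swap i j) f‖
  set b := ‖h + S.s (Equiv.swap i j) h‖
  constructor
  · have h3 : b ^ 2 = 4 * ‖h‖ ^ 2 - a ^ 2 := by nlinarith [hpar]
    have h4 : (‖u‖ * b) ^ 2 = ‖u‖ ^ 2 * (4 * ‖h‖ ^ 2 - a ^ 2) := by
      rw [mul_pow, h3]
    nlinarith [hc2, h4]
  · nlinarith [hpar, mul_self_nonneg b]

end Pool.Agent.GRA.H86
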