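import Pool.Agent.GRA.StmtsC

/-!
# Row CON of the squad GRA (problem MP_3b0ba7_pr)
-/

open MeasureTheory Matrix Finset
open scoped ComplexConjugate

namespace Pool.Agent.GRA.H86

open Pool.Agent.Helper64_FR Pool.Agent.GRA

variable {n : ℕ}

/-- real version of `yv` -/
noncomputable def yr (X : Fin n → Fin n → ℝ) (q : ℝ) (i : Fin n) : ℝ :=
  (∑ j, X i j - ((n : ℝ) - 1) * q) / ((n : ℝ) - 2)

/-- real version of `zv` -/
noncomputable def zr (X : Fin n → Fin n → ℝ) (q : ℝ) (i j : Fin n) : ℝ :=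
  if i = j then 0 else X i j - q - yr X q i - yr X q j

theorem sum_yr (X : Fin n → Fin n → ℝ) (q : ℝ)
    (hs : ∑ i, ∑ j, X i j = (n : ℝ) * ((n : ℝ) - 1) * q) : ∑ i, yr X q i = 0 := by
  unfold yr
  rw [← Finset.sum_div, Finset.sum_sub_distrib, hs]
  simp
  left
  ring

theorem row_yr (hn : 4 ≤ n) (X : Fin n → Fin n → ℝ) (q : ℝ) (i : Fin n) :
    ∑ j, X i j = ((n : ℝ) - 2) * yr X q i + ((n : ℝ) - 1) * q := by
  have hN : (4 : ℝ) ≤ n := by exact_mod_cast hn
  have h2 : (n : ℝ) - 2 ≠ 0 := by linarith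
  unfold yr
  field_simp
  ring

theorem zr_symm (X : Fin n → Fin n → ℝ) (q : ℝ) (h1 : ∀ i j, X i j = X j i) (i j : Fin n) :
    zr X q i j = zr X q j i := by
  unfold zr
  by_cases h : i = j
  · subst h; rfl
  · rw [if_neg h, if_neg (Ne.symm h), h1 i j]; ring

/-- the array in terms of `y` and `z` -/
theorem X_eq (X : Fin n → Fin n → ℝ) (q : ℝ) (h2 : ∀ i, X i i = 0) (i j : Fin n) :
    X i j = (q + yr X q i + yr X q j) + zr X q i j -
      (if i = j then q + 2 * yr X q i else 0) := by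
  unfold zr
  by_cases h : i = j
  · subst h; rw [if_pos rfl, if_pos rfl, h2]; ring
  · rw [if_neg h, if_neg h]; ring

theorem row_zr (hn : 4 ≤ n) (X : Fin n → Fin n → ℝ) (q : ℝ) (h2 : ∀ i, X i i = 0)
    (hs : ∑ i, ∑ j, X i j = (n : ℝ) * ((n : ℝ) - 1) * q) (i : Fin n) : ∑ j, zr X q i j = 0 := by
  have h := row_yr hn X q i
  have hy := sum_yr X q hs
  have h3 : ∑ j, X i j = ∑ j, ((q + yr X q i + yr X q j) + zr X q i j -
      (if i = j then q + 2 * yr X q i else 0)) :=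
    Finset.sum_congr rfl fun j _ => X_eq X q h2 i j
  rw [Finset.sum_sub_distrib, Finset.sum_add_distrib, Finset.sum_add_distrib, hy] at h3
  simp only [Finset.sum_const, Finset.card_univ, Fintype.card_fin, nsmul_eq_mul,
    Finset.sum_ite_eq, Finset.mem_univ, if_true] at h3
  linarith

theorem sum_sq (hn : 4 ≤ n) (X : Fin n → Fin n → ℝ) (q : ℝ) (h1 : ∀ i j, X i j = X j i)
    (h2 : ∀ i, X i i = 0)
    (hs : ∑ i, ∑ j, X i j = (n : ℝ) * ((n : ℝ) - 1) * q) :
    ∑ i, ∑ k, X i k ^ 2 = (n : ℝ) * ((n : ℝ) - 1) * q ^ 2 +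
      2 * ((n : ℝ) - 2) * ∑ i, yr X q i ^ 2 + ∑ i, ∑ k, zr X q i k ^ 2 := by
  have hy := sum_yr X q hs
  have hrow : ∀ i, ∑ k, X i k ^ 2 = (n : ℝ) * (q + yr X q i) ^ 2 + ∑ k, yr X q k ^ 2 +
      ∑ k, zr X q i k ^ 2 + 2 * ∑ k, yr X q k * zr X q i k - (q + 2 * yr X q i) ^ 2 := by
    intro i
    have e : ∀ k, X i k ^ 2 = (q + yr X q i) ^ 2 + 2 * (q + yr X q i) * yr X q k +
        yr X q k ^ 2 + zr X q i k ^ 2 + 2 * (q + yr X q i) * zr X q i k +
        2 * (yr X q k * zr X q i k) - (if i = k then (q + 2 * yr X q i) ^ 2 else 0) := by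
      intro k
      by_cases h : i = k
      · subst h
        rw [h2, if_pos rfl]
        unfold zr
        rw [if_pos rfl]
        ring
      · rw [X_eq X q h2 i k, if_neg h, if_neg h]
        ring
    rw [Finset.sum_congr rfl fun k _ => e k, Finset.sum_sub_distrib, Finset.sum_add_distrib,
      Finset.sum_add_distrib, Finset.sum_add_distrib, Finset.sum_add_distrib,
      Finset.sum_add_distrib, ← Finset.mul_sum, ← Finset.mul_sum, ← Finset.mul_sum, hy,
      row_zr hn X q h2 hs i]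
    simp only [Finset.sum_const, Finset.card_univ, Fintype.card_fin, nsmul_eq_mul,
      Finset.sum_ite_eq, Finset.mem_univ, if_true]
    ring
  have hcross : ∑ i, ∑ k, yr X q k * zr X q i k = 0 := by
    rw [Finset.sum_comm]
    refine Finset.sum_eq_zero fun k _ => ?_
    rw [← Finset.mul_sum]
    have : ∑ i, zr X q i k = 0 := by
      rw [← row_zr hn X q h2 hs k]
      exact Finset.sum_congr rfl fun i _ => zr_symm X q h1 i k
    rw [this, mul_zero]
  rw [Finset.sum_congr rfl fun i _ => hrow i, Finset.sum_sub_distrib, Finset.sum_add_distrib,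
    Finset.sum_add_distrib, Finset.sum_add_distrib, ← Finset.mul_sum, ← Finset.mul_sum, hcross]
  have e1 : ∑ i, (q + yr X q i) ^ 2 = (n : ℝ) * q ^ 2 + ∑ i, yr X q i ^ 2 := by
    have : ∀ i, (q + yr X q i) ^ 2 = q ^ 2 + 2 * q * yr X q i + yr X q i ^ 2 := fun i => by ring
    rw [Finset.sum_congr rfl fun i _ => this i, Finset.sum_add_distrib, Finset.sum_add_distrib,
      ← Finset.mul_sum, hy]
    simp
  have e2 : ∑ i, (q + 2 * yr X q i) ^ 2 = (n : ℝ) * q ^ 2 + 4 * ∑ i, yr X q i ^ 2 := by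
    have : ∀ i, (q + 2 * yr X q i) ^ 2 = q ^ 2 + 4 * q * yr X q i + 4 * yr X q i ^ 2 :=
      fun i => by ring
    rw [Finset.sum_congr rfl fun i _ => this i, Finset.sum_add_distrib, Finset.sum_add_distrib,
      ← Finset.mul_sum, ← Finset.mul_sum, hy]
    simp
  rw [e1, e2]
  simp only [Finset.sum_const, Finset.card_univ, Fintype.card_fin, nsmul_eq_mul]
  ring

theorem sum_row_sq (hn : 4 ≤ n) (X : Fin n → Fin n → ℝ) (q : ℝ)
    (hs : ∑ i, ∑ j, X i j = (n : ℝ) * ((n : ℝ) - 1) * q) :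
    ∑ i, (∑ j, X i j) ^ 2 = (n : ℝ) * ((n : ℝ) - 1) ^ 2 * q ^ 2 +
      ((n : ℝ) - 2) ^ 2 * ∑ i, yr X q i ^ 2 := by
  have hy := sum_yr X q hs
  have : ∀ i, (∑ j, X i j) ^ 2 = ((n : ℝ) - 1) ^ 2 * q ^ 2 +
      2 * ((n : ℝ) - 1) * q * ((n : ℝ) - 2) * yr X q i +
      ((n : ℝ) - 2) ^ 2 * yr X q i ^ 2 := fun i => by
    rw [row_yr hn X q i]; ring
  rw [Finset.sum_congr rfl fun i _ => this i, Finset.sum_add_distrib, Finset.sum_add_distrib]
  simp only [← Finset.mul_sum]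
  rw [hy]
  simp only [Finset.sum_const, Finset.card_univ, Fintype.card_fin, nsmul_eq_mul]
  ring

theorem sum_var (hn : 4 ≤ n) (v : Fin n → ℝ) (c : ℝ) (hc : (n : ℝ) * c = ∑ i, v i) :
    ∑ k, (v k - c) ^ 2 = ∑ k, v k ^ 2 - (∑ i, v i) ^ 2 / n := by
  have hN : (4 : ℝ) ≤ n := by exact_mod_cast hn
  have h0 : (n : ℝ) ≠ 0 := by linarith
  have : ∀ k, (v k - c) ^ 2 = v k ^ 2 - 2 * c * v k + c ^ 2 := fun k => by ring
  rw [Finset.sum_congr rfl fun k _ => this k, Finset.sum_add_distrib, Finset.sum_sub_distrib,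
    ← Finset.mul_sum, ← hc]
  simp only [Finset.sum_const, Finset.card_univ, Fintype.card_fin, nsmul_eq_mul]
  field_simp
  ring

/-- the left side -/
theorem left_id (hn : 4 ≤ n) (X : Fin n → Fin n → ℝ) (q : ℝ) (h1 : ∀ i j, X i j = X j i)
    (h2 : ∀ i, X i i = 0)
    (hs : ∑ i, ∑ j, X i j = (n : ℝ) * ((n : ℝ) - 1) * q) :
    ∑ k, (∑ i, (X i k - (∑ j, X i j) / n) ^ 2 - (∑ i, (X i k - (∑ j, X i j) / n)) ^ 2 / n) =
      ((n : ℝ) - 1) * q ^ 2 + (4 * ((n : ℝ) - 2) / n) * ∑ i, yr X q i ^ 2 +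
        ∑ i, ∑ k, zr X q i k ^ 2 := by
  have hN : (4 : ℝ) ≤ n := by exact_mod_cast hn
  have h0 : (n : ℝ) ≠ 0 := by linarith
  rw [Finset.sum_sub_distrib, Finset.sum_comm, ← Finset.sum_div]
  have e1 : ∀ i, ∑ k, (X i k - (∑ j, X i j) / n) ^ 2 =
      ∑ k, X i k ^ 2 - (∑ j, X i j) ^ 2 / n := by
    intro i
    apply sum_var hn
    field_simp
  have e2 : ∀ k, (∑ i, (X i k - (∑ j, X i j) / n)) ^ 2 = ((n : ℝ) - 2) ^ 2 * yr X q k ^ 2 := by
    intro k
    rw [Finset.sum_sub_distrib, ← Finset.sum_div, hs]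
    have : ∑ i, X i k = ∑ i, X k i := Finset.sum_congr rfl fun i _ => h1 i k
    rw [this, row_yr hn X q k]
    field_simp
    ring
  rw [Finset.sum_congr rfl fun i _ => e1 i, Finset.sum_congr rfl fun i _ => e2 i,
    Finset.sum_sub_distrib, ← Finset.sum_div, sum_sq hn X q h1 h2 hs, sum_row_sq hn X q hs,
    ← Finset.mul_sum]
  field_simp
  ring

/-- the right side -/
theorem right_id (hn : 4 ≤ n) (X : Fin n → Fin n → ℝ) (q : ℝ) (h1 : ∀ i j, X i j = X j i)
    (h2 : ∀ i, X i i = 0)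
    (hs : ∑ i, ∑ j, X i j = (n : ℝ) * ((n : ℝ) - 1) * q) (i j : Fin n) (hij : i ≠ j) :
    ∑ k, ((X i k - (∑ l, X i l) / n) - (X j k - (∑ l, X j l) / n)) ^ 2 =
      2 * X i j ^ 2 + (2 * ((n : ℝ) - 2) / n) * (yr X q i - yr X q j) ^ 2 +
        ∑ k, (if k = i ∨ k = j then 0 else (zr X q i k - zr X q j k) ^ 2) := by
  have hN : (4 : ℝ) ≤ n := by exact_mod_cast hn
  have h0 : (n : ℝ) ≠ 0 := by linarith
  have e0 : ∑ k, ((X i k - (∑ l, X i l) / n) - (X j k - (∑ l, X j l) / n)) ^ 2 =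
      ∑ k, ((X i k - X j k) - ((∑ l, X i l) - (∑ l, X j l)) / n) ^ 2 :=
    Finset.sum_congr rfl fun k _ => by ring
  rw [e0, sum_var hn (fun k => X i k - X j k) _
    (by rw [Finset.sum_sub_distrib]; field_simp)]
  have e1 : ∀ k, (X i k - X j k) ^ 2 = (yr X q i - yr X q j) ^ 2 +
      2 * (yr X q i - yr X q j) * (zr X q i k - zr X q j k) +
      (if k = i ∨ k = j then 0 else (zr X q i k - zr X q j k) ^ 2) +
      (if k = i then X i j ^ 2 - (yr X q i - yr X q j) ^ 2 +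
        2 * (yr X q i - yr X q j) * zr X q i j else 0) +
      (if k = j then X i j ^ 2 - (yr X q i - yr X q j) ^ 2 -
        2 * (yr X q i - yr X q j) * zr X q i j else 0) := by
    intro k
    have zii : ∀ i, zr X q i i = 0 := fun i => by unfold zr; rw [if_pos rfl]
    by_cases hki : k = i
    · subst hki
      rw [if_pos (Or.inl rfl), if_pos rfl, if_neg hij, h2, zii, zr_symm X q h1 j k, h1 j k]
      ring
    · by_cases hkj : k = j
      · subst hkj
        rw [if_pos (Or.inr rfl), if_neg hki, if_pos rfl, h2, zii]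
        ring
      · rw [if_neg (by tauto), if_neg hki, if_neg hkj, X_eq X q h2 i k, X_eq X q h2 j k,
          if_neg (Ne.symm hki), if_neg (Ne.symm hkj)]
        ring
  rw [Finset.sum_congr rfl fun k _ => e1 k]
  simp only [Finset.sum_add_distrib, Finset.sum_ite_eq', Finset.mem_univ, if_true,
    ← Finset.mul_sum, Finset.sum_sub_distrib, row_zr hn X q h2 hs, Finset.sum_const,
    Finset.card_univ, Fintype.card_fin, nsmul_eq_mul]
  rw [row_yr hn X q i, row_yr hn X q j]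
  field_simp
  ring

/-- the real version -/
theorem conR (hn : 4 ≤ n) (X : Fin n → Fin n → ℝ) (q : ℝ) (h1 : ∀ i j, X i j = X j i)
    (h2 : ∀ i, X i i = 0)
    (hs : ∑ i, ∑ j, X i j = (n : ℝ) * ((n : ℝ) - 1) * q)
    (W : Fin n → Fin n → ℝ) (lam : ℝ) (hW : OneG W Finset.univ lam) :
    lam * (((n : ℝ) - 1) * q ^ 2 + (4 * ((n : ℝ) - 2) / n) * ∑ i, yr X q i ^ 2 +
        ∑ i, ∑ k, zr X q i k ^ 2) ≤
      (1 / 2) * ∑ i, ∑ j, if i = j then 0 else W i j * (X i j ^ 2 +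
        (((n : ℝ) - 2) / n) * (yr X q i - yr X q j) ^ 2 +
        (1 / 2) * ∑ k, (if k = i ∨ k = j then 0 else (zr X q i k - zr X q j k) ^ 2)) := by
  rw [← left_id hn X q h1 h2 hs, Finset.mul_sum]
  have hk : ∀ k ∈ (Finset.univ : Finset (Fin n)),
      lam * (∑ i, (X i k - (∑ j, X i j) / n) ^ 2 - (∑ i, (X i k - (∑ j, X i j) / n)) ^ 2 / n) ≤
      (1 / 4) * ∑ i, ∑ j, W i j * ((X i k - (∑ l, X i l) / n) - (X j k - (∑ l, X j l) / n)) ^ 2 :=
    by
    intro k _
    have h := hW (fun i => X i k - (∑ j, X i j) / n)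
    rw [Finset.card_univ, Fintype.card_fin] at h
    exact h
  refine (Finset.sum_le_sum hk).trans (le_of_eq ?_)
  rw [← Finset.mul_sum, Finset.sum_comm]
  have e : ∀ i ∈ (Finset.univ : Finset (Fin n)), ∑ k, ∑ j, W i j *
      ((X i k - (∑ l, X i l) / n) - (X j k - (∑ l, X j l) / n)) ^ 2 =
      2 * ∑ j, if i = j then 0 else W i j * (X i j ^ 2 +
        (((n : ℝ) - 2) / n) * (yr X q i - yr X q j) ^ 2 +
        (1 / 2) * ∑ k, (if k = i ∨ k = j then 0 else (zr X q i k - zr X q j k) ^ 2)) := by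
    intro i _
    rw [Finset.sum_comm, Finset.mul_sum]
    refine Finset.sum_congr rfl fun j _ => ?_
    rw [← Finset.mul_sum]
    by_cases hij : i = j
    · subst hij
      simp
    · rw [if_neg hij, right_id hn X q h1 h2 hs i j hij]
      ring
  rw [Finset.sum_congr rfl e, ← Finset.mul_sum]
  ring

theorem norm_sq_parts (z : ℂ) : ‖z‖ ^ 2 = z.re ^ 2 + z.im ^ 2 := by
  rw [← Complex.normSq_eq_norm_sq, Complex.normSq_apply]; ring

theorem div_parts (z : ℂ) (a : ℝ) : (z / (a : ℂ)).re = z.re / a ∧ (z / (a : ℂ)).im = z.im / a :=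
  ⟨Complex.div_ofReal_re z a, Complex.div_ofReal_im z a⟩

theorem yv_re (x : Fin n → Fin n → ℂ) (Q : ℝ) (i : Fin n) :
    (yv x Q i).re = yr (fun i j => (x i j).re) Q i := by
  unfold yv yr
  have h : ((n : ℂ) - 2) = (((n : ℝ) - 2 : ℝ) : ℂ) := by push_cast; ring
  have h' : ((n : ℂ) - 1) * (Q : ℂ) = ((((n : ℝ) - 1) * Q : ℝ) : ℂ) := by push_cast; ring
  rw [h, Complex.div_ofReal_re, h', Complex.sub_re, Complex.ofReal_re, Complex.re_sum]

theorem yv_im (x : Fin n → Fin n → ℂ) (Q : ℝ) (i : Fin n) :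
    (yv x Q i).im = yr (fun i j => (x i j).im) 0 i := by
  unfold yv yr
  have h : ((n : ℂ) - 2) = (((n : ℝ) - 2 : ℝ) : ℂ) := by push_cast; ring
  have h' : ((n : ℂ) - 1) * (Q : ℂ) = ((((n : ℝ) - 1) * Q : ℝ) : ℂ) := by push_cast; ring
  rw [h, Complex.div_ofReal_im, h', Complex.sub_im, Complex.ofReal_im, Complex.im_sum, mul_zero]

theorem zv_re (x : Fin n → Fin n → ℂ) (Q : ℝ) (i j : Fin n) :
    (zv x Q i j).re = zr (fun i j => (x i j).re) Q i j := by
  unfold zv zr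
  by_cases h : i = j
  · rw [if_pos h, if_pos h]; rfl
  · rw [if_neg h, if_neg h, Complex.sub_re, Complex.sub_re, Complex.sub_re, yv_re, yv_re,
      Complex.ofReal_re]

theorem zv_im (x : Fin n → Fin n → ℂ) (Q : ℝ) (i j : Fin n) :
    (zv x Q i j).im = zr (fun i j => (x i j).im) 0 i j := by
  unfold zv zr
  by_cases h : i = j
  · rw [if_pos h, if_pos h]; rfl
  · rw [if_neg h, if_neg h, Complex.sub_im, Complex.sub_im, Complex.sub_im, yv_im, yv_im,
      Complex.ofReal_im]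

theorem con : CONStmt := by
  intro n hn x Q hx W lam hW
  obtain ⟨hx1, hx2, hx3⟩ := hx
  have hre : ∑ i, ∑ j, (fun i j => (x i j).re) i j = (n : ℝ) * ((n : ℝ) - 1) * Q := by
    have h := congrArg Complex.re hx3
    have h' : (n : ℂ) * ((n : ℂ) - 1) * (Q : ℂ) = (((n : ℝ) * ((n : ℝ) - 1) * Q : ℝ) : ℂ) := by
      push_cast; ring
    rw [h', Complex.ofReal_re, Complex.re_sum] at h
    rw [← h]
    refine Finset.sum_congr rfl fun i _ => ?_
    rw [Complex.re_sum]
  have him : ∑ i, ∑ j, (fun i j => (x i j).im) i j = (n : ℝ) * ((n : ℝ) - 1) * 0 := by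
    have h := congrArg Complex.im hx3
    have h' : (n : ℂ) * ((n : ℂ) - 1) * (Q : ℂ) = (((n : ℝ) * ((n : ℝ) - 1) * Q : ℝ) : ℂ) := by
      push_cast; ring
    rw [h', Complex.ofReal_im, Complex.im_sum] at h
    rw [mul_zero, ← h]
    refine Finset.sum_congr rfl fun i _ => ?_
    rw [Complex.im_sum]
  have A := conR hn (fun i j => (x i j).re) Q (fun i j => by rw [hx1 i j])
    (fun i => by rw [hx2 i]; rfl) hre W lam hW
  have B := conR hn (fun i j => (x i j).im) 0 (fun i j => by rw [hx1 i j])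
    (fun i => by rw [hx2 i]; rfl) him W lam hW
  have hY : Yv x Q = ∑ i, yr (fun i j => (x i j).re) Q i ^ 2 +
      ∑ i, yr (fun i j => (x i j).im) 0 i ^ 2 := by
    unfold Yv
    rw [← Finset.sum_add_distrib]
    refine Finset.sum_congr rfl fun i _ => ?_
    rw [norm_sq_parts, yv_re, yv_im]
  have hZ : 2 * Zv x Q = ∑ i, ∑ k, zr (fun i j => (x i j).re) Q i k ^ 2 +
      ∑ i, ∑ k, zr (fun i j => (x i j).im) 0 i k ^ 2 := by
    unfold Zv
    rw [← Finset.sum_add_distrib, ← mul_assoc]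
    norm_num
    refine Finset.sum_congr rfl fun i _ => ?_
    rw [← Finset.sum_add_distrib]
    refine Finset.sum_congr rfl fun j _ => ?_
    rw [norm_sq_parts, zv_re, zv_im]
  rw [hY, hZ]
  refine (le_of_eq ?_).trans ((add_le_add A B).trans (le_of_eq ?_))
  · ring
  · rw [← mul_add, ← Finset.sum_add_distrib]
    congr 1
    refine Finset.sum_congr rfl fun i _ => ?_
    rw [← Finset.sum_add_distrib]
    refine Finset.sum_congr rfl fun j _ => ?_
    by_cases hij : i = j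
    · simp [hij]
    · rw [if_neg hij, if_neg hij, if_neg hij]
      unfold A2
      have e1 : ‖x i j‖ ^ 2 = (x i j).re ^ 2 + (x i j).im ^ 2 := norm_sq_parts _
      have e2 : ‖yv x Q i - yv x Q j‖ ^ 2 =
          (yr (fun i j => (x i j).re) Q i - yr (fun i j => (x i j).re) Q j) ^ 2 +
          (yr (fun i j => (x i j).im) 0 i - yr (fun i j => (x i j).im) 0 j) ^ 2 := by
        rw [norm_sq_parts, Complex.sub_re, Complex.sub_im, yv_re, yv_im, yv_re, yv_im]
      have e3 : (∑ k, if k = i ∨ k = j then (0 : ℝ) else ‖zv x Q i k - zv x Q j k‖ ^ 2) =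
          (∑ k, if k = i ∨ k = j then 0 else
            (zr (fun i j => (x i j).re) Q i k - zr (fun i j => (x i j).re) Q j k) ^ 2) +
          (∑ k, if k = i ∨ k = j then 0 else
            (zr (fun i j => (x i j).im) 0 i k - zr (fun i j => (x i j).im) 0 j k) ^ 2) := by
        rw [← Finset.sum_add_distrib]
        refine Finset.sum_congr rfl fun k _ => ?_
        by_cases hk : k = i ∨ k = j
        · rw [if_pos hk, if_pos hk, if_pos hk, add_zero]
        · rw [if_neg hk, if_neg hk, if_neg hk, norm_sq_parts, Complex.sub_re, Complex.sub_im,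
            zv_re, zv_im, zv_re, zv_im]
      rw [e1, e2, e3]
      ring

end Pool.Agent.GRA.H86
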