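import Pool.Agent.GRA.StmtsK
import Pool.Agent.Helper25_GRA.KEQ
import Pool.Agent.Helper39_BSE.TRN

/-!
# Row KZO of the squad GRA (problem MP_3b0ba7_pr)
-/

open MeasureTheory Matrix Finset
open scoped ComplexConjugate

namespace Pool.Agent.GRA.H86

open Pool.Agent.Helper64_FR Pool.Agent.UTR Pool.Agent.BSE
open Pool.Agent.Helper64_FR.ORT Pool.Agent.Helper64_FR.FIX Pool.Agent.GRA.H25 Pool.Agent.GRA

variable {n : ℕ}

theorem rk_ll (g : Matrix (Fin n) (Fin n) ℂ) (a b : Fin n → ℂ) (l : Fin n) :
    (star g * rk a b * g) l l = (∑ i, conj (g i l) * a i) * (∑ j, conj (b j) * g j l) := by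
  rw [Matrix.mul_apply, Finset.mul_sum]
  refine Finset.sum_congr rfl fun j _ => ?_
  rw [Matrix.mul_apply, Finset.sum_mul, Finset.sum_mul]
  refine Finset.sum_congr rfl fun i _ => ?_
  rw [Matrix.star_apply]
  change conj (g i l) * (a i * conj (b j)) * g j l = _
  ring

theorem two_sum (f : Fin n → ℂ) (l m : Fin n) (a1 a2 : ℂ) :
    ∑ i, f i * (Pi.single l a1 + Pi.single m a2 : Fin n → ℂ) i = f l * a1 + f m * a2 := by
  simp only [Pi.add_apply, mul_add, Finset.sum_add_distrib, Pi.single_apply, mul_ite, mul_zero,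
    Finset.sum_ite_eq', Finset.mem_univ, if_true]

theorem two_sum' (f : Fin n → ℂ) (l m : Fin n) (b1 b2 : ℂ) :
    ∑ i, conj ((Pi.single l b1 + Pi.single m b2 : Fin n → ℂ) i) * f i =
      conj b1 * f l + conj b2 * f m := by
  have h : ∀ i, conj ((Pi.single l b1 + Pi.single m b2 : Fin n → ℂ) i) * f i =
      (if i = l then conj b1 * f i else 0) + (if i = m then conj b2 * f i else 0) := by
    intro i
    simp only [Pi.add_apply, Pi.single_apply, map_add, add_mul]
    congr 1
    · split_ifs <;> simp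
    · split_ifs <;> simp
  rw [Finset.sum_congr rfl fun i _ => h i, Finset.sum_add_distrib]
  simp

/-- the moments -/
noncomputable def mom (σ : URep n) (h : σ.Sp) (l m : Fin n) (k i j : ℕ) (g : UU n) : ℂ :=
  (inner ℂ (σ.op g h) h : ℂ) *
    (conj ((g : Matrix (Fin n) (Fin n) ℂ) l l) ^ i * conj ((g : Matrix (Fin n) (Fin n) ℂ) m l) ^ (k - i) *
    ((g : Matrix (Fin n) (Fin n) ℂ) l l ^ j * (g : Matrix (Fin n) (Fin n) ℂ) m l ^ (k - j)))

theorem cont_mom (σ : URep n) (h : σ.Sp) (l m : Fin n) (k i j : ℕ) :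
    Continuous (mom σ h l m k i j) := by
  have h1 : Continuous fun g : UU n => (inner ℂ (σ.op g h) h : ℂ) :=
    ((continuous_op σ).clm_apply continuous_const).inner continuous_const
  have h2 : ∀ i j : Fin n, Continuous fun g : UU n => (g : Matrix (Fin n) (Fin n) ℂ) i j :=
    fun i j => Continuous.matrix_elem continuous_subtype_val i j
  exact h1.mul ((((Complex.continuous_conj.comp (h2 l l)).pow i).mul
    ((Complex.continuous_conj.comp (h2 m l)).pow (k - i))).mul
    (((h2 l l).pow j).mul ((h2 m l).pow (k - j))))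

theorem int_mom (σ : URep n) (h : σ.Sp) (l m : Fin n) (k i j : ℕ) :
    Integrable (mom σ h l m k i j) (haarU n) :=
  (cont_mom σ h l m k i j).integrable_of_hasCompactSupport (HasCompactSupport.of_compactSpace _)

/-- the diagonal matrix with entry `z` at `l` and `1` elsewhere -/
def tz (l : Fin n) (z : ℂ) (hz : z * conj z = 1) : UU n :=
  ⟨Matrix.diagonal fun i => if i = l then z else 1, by
    rw [Matrix.mem_unitaryGroup_iff]
    ext i j
    rw [Matrix.diagonal_mul, Matrix.star_apply, Matrix.one_apply]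
    by_cases hij : i = j
    · subst hij
      rw [Matrix.diagonal_apply_eq, if_pos rfl]
      by_cases hi : i = l
      · rw [if_pos hi]; exact hz
      · rw [if_neg hi, star_one, mul_one]
    · rw [Matrix.diagonal_apply_ne _ (Ne.symm hij), if_neg hij, star_zero, mul_zero]⟩

theorem tz_apply (l : Fin n) (z : ℂ) (hz : z * conj z = 1) (g : UU n) (i j : Fin n) :
    ((tz l z hz * g : UU n) : Matrix (Fin n) (Fin n) ℂ) i j =
      (if i = l then z else 1) * (g : Matrix (Fin n) (Fin n) ℂ) i j := by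
  show ((Matrix.diagonal fun i => if i = l then z else 1) * (g : Matrix (Fin n) (Fin n) ℂ)) i j = _
  rw [Matrix.diagonal_mul]

theorem tz_mem (l : Fin n) (z : ℂ) (hz : z * conj z = 1) : tz l z hz ∈ UB ({l} : Finset (Fin n)) := by
  intro i j hij
  show (Matrix.diagonal fun i => if i = l then z else 1) i j = _
  by_cases h : i = j
  · subst h
    rw [Matrix.diagonal_apply_eq, if_pos rfl]
    have h1 : i ≠ l := by
      rcases hij with h1 | h1
      · exact fun h2 => h1 (Finset.mem_singleton.mpr h2)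
      · exact fun h2 => h1 (Finset.mem_singleton.mpr h2)
    rw [if_neg h1]
  · rw [Matrix.diagonal_apply_ne _ h, if_neg h]

theorem inner_fx (σ : URep n) (h : σ.Sp) (B : Finset (Fin n)) (hB : Fx σ B h) (t : UU n)
    (ht : t ∈ UB B) (g : UU n) :
    (inner ℂ (σ.op (t * g) h) h : ℂ) = inner ℂ (σ.op g h) h := by
  have e2 : σ.op (t * g) h = σ.op t (σ.op g h) := by
    rw [op_mul]; rfl
  rw [e2, inner_op_left, hB t⁻¹ ((UB B).inv_mem ht)]

theorem mom_zero (σ : URep n) (h : σ.Sp) (l m : Fin n) (hlm : l ≠ m) (hl : Fx σ {l} h) (k i j : ℕ)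
    (hij : i ≠ j) : ∫ g, mom σ h l m k i j g ∂(haarU n) = 0 := by
  have hd : ((j : ℂ) - (i : ℂ)) ≠ 0 := by
    intro h0
    apply hij
    have := sub_eq_zero.mp h0
    exact_mod_cast this.symm
  set z : ℂ := Complex.exp (((Real.pi / ((j : ℝ) - (i : ℝ)) : ℝ) : ℂ) * Complex.I) with hz
  have hcz : conj z = Complex.exp (-(((Real.pi / ((j : ℝ) - (i : ℝ)) : ℝ) : ℂ) * Complex.I)) := by
    rw [hz, ← Complex.exp_conj, map_mul, Complex.conj_I, Complex.conj_ofReal, mul_neg]
  have hz1 : z * conj z = 1 := by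
    rw [hcz, hz, ← Complex.exp_add, add_neg_cancel, Complex.exp_zero]
  have hzz : conj z ^ i * z ^ j = -1 := by
    rw [hcz, hz, ← Complex.exp_nat_mul, ← Complex.exp_nat_mul, ← Complex.exp_add,
      ← Complex.exp_pi_mul_I]
    congr 1
    push_cast
    field_simp
    ring
  have h1 := integral_mul_left_eq_self (μ := haarU n) (mom σ h l m k i j) (tz l z hz1)
  have h2 : ∀ g, mom σ h l m k i j (tz l z hz1 * g) = -1 * mom σ h l m k i j g := by
    intro g
    unfold mom
    rw [inner_fx σ h {l} hl _ (tz_mem l z hz1), tz_apply, tz_apply, if_pos rfl,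
      if_neg (Ne.symm hlm), one_mul, map_mul, mul_pow, mul_pow, ← hzz]
    ring
  simp only [h2] at h1
  rw [integral_const_mul] at h1
  have h3 : (2 : ℂ) * ∫ g, mom σ h l m k i j g ∂(haarU n) = 0 := by linear_combination -h1
  simpa using h3

theorem kzo1 (σ : URep n) (h : σ.Sp) (l m : Fin n) (hlm : l ≠ m) (hl : Fx σ {l} h) (k : ℕ)
    (a1 a2 b1 b2 : ℂ) : sph σ h l k h (rk (Pi.single l a1 + Pi.single m a2)
      (Pi.single l b1 + Pi.single m b2)) =
    ∑ j ∈ range (k + 1), (((k.choose j : ℂ)) ^ 2 * ∫ g, mom σ h l m k j j g ∂(haarU n)) *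
      (a1 * conj b1) ^ j * (a2 * conj b2) ^ (k - j) := by
  unfold sph
  have h1 : ∀ g : UU n, (inner ℂ (σ.op g h) h : ℂ) *
      (star (g : Matrix (Fin n) (Fin n) ℂ) * (rk (Pi.single l a1 + Pi.single m a2)
      (Pi.single l b1 + Pi.single m b2) : Matrix (Fin n) (Fin n) ℂ) *
        (g : Matrix (Fin n) (Fin n) ℂ)) l l ^ k =
      ∑ i ∈ range (k + 1), ∑ j ∈ range (k + 1),
        ((k.choose i : ℂ) * (k.choose j : ℂ) * (a1 ^ i * a2 ^ (k - i)) *
          (conj b1 ^ j * conj b2 ^ (k - j))) * mom σ h l m k i j g := by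
    intro g
    rw [rk_ll, two_sum, two_sum', mul_pow, add_pow, add_pow, Finset.sum_mul_sum, Finset.mul_sum]
    refine Finset.sum_congr rfl fun i _ => ?_
    rw [Finset.mul_sum]
    refine Finset.sum_congr rfl fun j _ => ?_
    unfold mom
    rw [mul_pow, mul_pow, mul_pow, mul_pow]
    ring
  simp only [h1]
  rw [integral_finsetSum _ fun i _ => integrable_finsetSum _ fun j _ =>
    (int_mom σ h l m k i j).const_mul _]
  refine Finset.sum_congr rfl fun i hi => ?_
  rw [integral_finsetSum _ fun j _ => (int_mom σ h l m k i j).const_mul _]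
  rw [Finset.sum_eq_single_of_mem i hi]
  · rw [integral_const_mul, mul_pow, mul_pow]
    ring
  · intro j _ hji
    rw [integral_const_mul, mom_zero σ h l m hlm hl k i j (Ne.symm hji), mul_zero]

/-- **Row KZO** -/
theorem kzo : KZOStmt := by
  intro n σ h l m hlm hl k
  refine ⟨fun j => ((k.choose j : ℂ)) ^ 2 * ∫ g, mom σ h l m k j j g ∂(haarU n),
    kzo1 σ h l m hlm hl k, ?_⟩
  intro hB v hv
  set s : ℝ := ‖v l‖ ^ 2 with hs
  have hsum : s + ∑ i ∈ Finset.univ.erase l, ‖v i‖ ^ 2 = 1 := by
    rw [hs, Finset.add_sum_erase _ (fun i => ‖v i‖ ^ 2) (Finset.mem_univ l)]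
    exact hv
  have hs1 : 0 ≤ 1 - s := by
    have : 0 ≤ ∑ i ∈ Finset.univ.erase l, ‖v i‖ ^ 2 :=
      Finset.sum_nonneg fun i _ => by positivity
    linarith
  set t : ℝ := Real.sqrt (1 - s) with ht
  have htt : t ^ 2 = 1 - s := Real.sq_sqrt hs1
  have key : sph σ h l k h (rk v v) = sph σ h l k h
      (rk (Pi.single l (v l) + Pi.single m (t : ℂ)) (Pi.single l (v l) + Pi.single m (t : ℂ))) := by
    by_cases ht0 : t = 0
    · have hv0 : ∀ i, i ≠ l → v i = 0 := by
        intro i hi
        have h1 : ∑ i ∈ Finset.univ.erase l, ‖v i‖ ^ 2 = 0 := by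
          rw [ht0] at htt
          linarith
        have h2 := (Finset.sum_eq_zero_iff_of_nonneg
          (fun i _ => by positivity : ∀ i ∈ Finset.univ.erase l, 0 ≤ ‖v i‖ ^ 2)).mp h1 i
          (Finset.mem_erase.mpr ⟨hi, Finset.mem_univ i⟩)
        have h3 : ‖v i‖ = 0 := by
          exact pow_eq_zero_iff (two_ne_zero) |>.mp h2
        exact norm_eq_zero.mp h3
      have hv1 : v = Pi.single l (v l) + Pi.single m (t : ℂ) := by
        funext i
        rw [ht0, Complex.ofReal_zero, Pi.single_zero, add_zero]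
        by_cases hi : i = l
        · subst hi; rw [Pi.single_eq_same]
        · rw [Pi.single_eq_of_ne hi, hv0 i hi]
      rw [← hv1]
    · have htp : (t : ℂ) ≠ 0 := by exact_mod_cast ht0
      have hmB : m ∈ Finset.univ.erase l := Finset.mem_erase.mpr ⟨Ne.symm hlm, Finset.mem_univ m⟩
      obtain ⟨A, hA, hAm⟩ := Pool.Agent.BSE.H39.trn n (Finset.univ.erase l) m hmB
        (fun i => if i = l then 0 else v i / (t : ℂ)) (by
          intro i hi
          have : i = l := by
            by_contra h1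
            exact hi (Finset.mem_erase.mpr ⟨h1, Finset.mem_univ i⟩)
          rw [if_pos this]) (by
          rw [← Finset.add_sum_erase _ _ (Finset.mem_univ l), if_pos rfl, norm_zero]
          have h1 : ∀ i ∈ Finset.univ.erase l, ‖(if i = l then 0 else v i / (t : ℂ))‖ ^ 2 =
              ‖v i‖ ^ 2 / t ^ 2 := by
            intro i hi
            rw [if_neg (Finset.ne_of_mem_erase hi), norm_div, div_pow, Complex.norm_real,
              Real.norm_eq_abs, sq_abs]
          rw [Finset.sum_congr rfl h1, ← Finset.sum_div]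
          have h2 : ∑ i ∈ Finset.univ.erase l, ‖v i‖ ^ 2 = t ^ 2 := by rw [htt]; linarith
          have h3 : t ^ 2 ≠ 0 := pow_ne_zero 2 ht0
          rw [h2, div_self h3]
          norm_num)
      have hAl : ∀ i, (A : Matrix (Fin n) (Fin n) ℂ) i l = if i = l then 1 else 0 := by
        intro i
        exact hA i l (Or.inr (Finset.notMem_erase l _))
      set w : Fin n → ℂ := Pi.single l (v l) + Pi.single m (t : ℂ) with hw
      have hAw : ∀ i, ∑ j, (A : Matrix (Fin n) (Fin n) ℂ) i j * w j = v i := by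
        intro i
        rw [hw, two_sum, hAl, hAm]
        by_cases hi : i = l
        · subst hi
          rw [if_pos rfl, if_pos rfl]; ring
        · rw [if_neg hi, if_neg hi]
          field_simp
          ring
      have hM : (A : Matrix (Fin n) (Fin n) ℂ) * rk w w * ((A⁻¹ : UU n) : Matrix (Fin n) (Fin n) ℂ)
          = rk v v := by
        have e6 : ((A⁻¹ : UU n) : Matrix (Fin n) (Fin n) ℂ) =
          star (A : Matrix (Fin n) (Fin n) ℂ) := rfl
        rw [e6]
        ext i j
        rw [Matrix.mul_apply]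
        have h1 : ∀ q, ((A : Matrix (Fin n) (Fin n) ℂ) * rk w w) i q *
            star (A : Matrix (Fin n) (Fin n) ℂ) q j =
            v i * conj ((A : Matrix (Fin n) (Fin n) ℂ) j q * w q) := by
          intro q
          rw [Matrix.mul_apply, Matrix.star_apply]
          have h2 : ∑ p, (A : Matrix (Fin n) (Fin n) ℂ) i p * rk w w p q = v i * conj (w q) := by
            rw [← hAw i, Finset.sum_mul]
            refine Finset.sum_congr rfl fun p _ => ?_
            change _ * (w p * conj (w q)) = _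
            ring
          rw [h2, map_mul]
          change v i * conj (w q) * conj ((A : Matrix (Fin n) (Fin n) ℂ) j q) = _
          ring
        rw [Finset.sum_congr rfl fun q _ => h1 q, ← Finset.mul_sum, ← map_sum, hAw j]
        rfl
      have h1 := sph_op σ h l k A⁻¹ h (rk w w)
      rw [hB A⁻¹ ((UB _).inv_mem hA), inv_inv, hM] at h1
      rw [h1]
  rw [key, kzo1 σ h l m hlm hl k]
  refine Finset.sum_congr rfl fun j _ => ?_
  have e1 : v l * conj (v l) = ((s : ℝ) : ℂ) := by
    rw [Complex.mul_conj, Complex.normSq_eq_norm_sq]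
  have e2 : (t : ℂ) * conj (t : ℂ) = 1 - ((s : ℝ) : ℂ) := by
    rw [Complex.conj_ofReal, ← Complex.ofReal_mul, ← pow_two, htt]
    push_cast
    ring
  rw [e1, e2]

end Pool.Agent.GRA.H86
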