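import Pool.Agent.GRA.StmtsK
import Pool.Agent.Helper39_GRA.KEX
import Pool.Agent.Helper86_GRA.KZO

/-!
# Row KSW of the squad GRA (problem MP_3b0ba7_pr): Stone-Weierstrass
-/

open MeasureTheory Matrix Finset
open scoped ComplexConjugate

namespace Pool.Agent.GRA.H86

open Pool.Agent.Helper64_FR Pool.Agent.UTR Pool.Agent.BSE
open Pool.Agent.Helper64_FR.ORT Pool.Agent.Helper64_FR.FIX Pool.Agent.GRA

variable {n : ℕ}

/-- the projective point of the column `l` -/
def pj (l : Fin n) (g : UU n) : Matrix (Fin n) (Fin n) ℂ :=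
  Matrix.of fun i j => (g : Matrix (Fin n) (Fin n) ℂ) i l *
    conj ((g : Matrix (Fin n) (Fin n) ℂ) j l)

theorem pj_apply (l : Fin n) (g : UU n) (i j : Fin n) : pj l g i j =
    (g : Matrix (Fin n) (Fin n) ℂ) i l * conj ((g : Matrix (Fin n) (Fin n) ℂ) j l) := rfl

theorem cont_entry (i j : Fin n) :
    Continuous fun g : UU n => (g : Matrix (Fin n) (Fin n) ℂ) i j :=
  Continuous.matrix_elem continuous_subtype_val i j

theorem cont_pj (l : Fin n) : Continuous (pj l : UU n → Matrix (Fin n) (Fin n) ℂ) := by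
  refine continuous_matrix fun i j => ?_
  exact (cont_entry i l).mul (Complex.continuous_conj.comp (cont_entry j l))

theorem col_unit (g : UU n) (i l : Fin n) :
    ∑ p, conj ((g : Matrix (Fin n) (Fin n) ℂ) p i) * (g : Matrix (Fin n) (Fin n) ℂ) p l =
      if i = l then 1 else 0 := by
  have h := congrFun (congrFun (Matrix.mem_unitaryGroup_iff'.mp g.2) i) l
  rw [Matrix.mul_apply, Matrix.one_apply] at h
  exact h

theorem mat_mul (g u : UU n) (i j : Fin n) : ((g⁻¹ * u : UU n) : Matrix (Fin n) (Fin n) ℂ) i j =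
    ∑ p, conj ((g : Matrix (Fin n) (Fin n) ℂ) p i) * (u : Matrix (Fin n) (Fin n) ℂ) p j := by
  change (star (g : Matrix (Fin n) (Fin n) ℂ) * (u : Matrix (Fin n) (Fin n) ℂ)) i j = _
  rw [Matrix.mul_apply]
  rfl

/-- a unitary with column `l` equal to `z e_l` is in `U_l U_{[n]-l}` -/
theorem fix_of_col (σ : URep n) (h : σ.Sp) (l : Fin n) (hB : Fx σ (Finset.univ.erase l) h)
    (hl : Fx σ {l} h) (u : UU n) (z : ℂ) (hz : z * conj z = 1)
    (hu : ∀ i, (u : Matrix (Fin n) (Fin n) ℂ) i l = if i = l then z else 0) : σ.op u h = h := by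
  have hz' : conj z * z = 1 := by rw [mul_comm]; exact hz
  have hzc : conj z * conj (conj z) = 1 := by rw [Complex.conj_conj]; exact hz'
  have hrow : ∀ j, (u : Matrix (Fin n) (Fin n) ℂ) l j = if l = j then z else 0 := by
    intro j
    have h1 := col_unit u j l
    have h2 : ∑ p, conj ((u : Matrix (Fin n) (Fin n) ℂ) p j) *
        (u : Matrix (Fin n) (Fin n) ℂ) p l = conj ((u : Matrix (Fin n) (Fin n) ℂ) l j) * z := by
      rw [Finset.sum_eq_single l]
      · rw [hu l, if_pos rfl]
      · intro p _ hp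
        rw [hu p, if_neg hp, mul_zero]
      · intro hn
        exact absurd (Finset.mem_univ l) hn
    rw [h2] at h1
    by_cases hjl : j = l
    · subst hjl
      rw [hu j]
    · rw [if_neg hjl] at h1
      rw [if_neg (Ne.symm hjl)]
      have hz0 : z ≠ 0 := by
        intro h0; rw [h0, zero_mul] at hz; exact zero_ne_one hz
      have h3 : conj ((u : Matrix (Fin n) (Fin n) ℂ) l j) = 0 := by
        rcases mul_eq_zero.mp h1 with h4 | h4
        · exact h4
        · exact absurd h4 hz0
      exact (map_eq_zero_iff _ (RingHom.injective _)).mp h3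
  have hmem : tz l (conj z) hzc * u ∈ UB (Finset.univ.erase l) := by
    intro i j hij
    rw [tz_apply]
    by_cases hil : i = l
    · subst hil
      rw [if_pos rfl, hrow j]
      split_ifs
      · exact hz'
      · exact mul_zero _
    · have hjl : j = l := by
        rcases hij with h1 | h1
        · exact absurd (Finset.mem_erase.mpr ⟨hil, Finset.mem_univ i⟩) h1
        · by_contra h2
          exact h1 (Finset.mem_erase.mpr ⟨h2, Finset.mem_univ j⟩)
      subst hjl
      rw [if_neg hil, hu i, if_neg hil, mul_zero, if_neg hil]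
  have hmem2 : (tz l (conj z) hzc)⁻¹ ∈ UB ({l} : Finset (Fin n)) :=
    (UB {l}).inv_mem (tz_mem l _ hzc)
  generalize tz l (conj z) hzc = t at hmem hmem2
  have hinv : t⁻¹ * (t * u) = u := inv_mul_cancel_left t u
  have h1 : σ.op (t⁻¹ * (t * u)) h = σ.op t⁻¹ (σ.op (t * u) h) := by
    rw [op_mul]; rfl
  rw [hinv] at h1
  rw [h1, hB _ hmem]
  exact hl _ hmem2

/-- the matrix coefficient depends only on the projective point -/
theorem phi_factors (σ : URep n) (h : σ.Sp) (l : Fin n) (hB : Fx σ (Finset.univ.erase l) h)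
    (hl : Fx σ {l} h) (g g' : UU n) (hgg : pj l g = pj l g') :
    (inner ℂ (σ.op g h) h : ℂ) = inner ℂ (σ.op g' h) h := by
  set z : ℂ := ∑ p, conj ((g : Matrix (Fin n) (Fin n) ℂ) p l) *
    (g' : Matrix (Fin n) (Fin n) ℂ) p l with hz
  have e : ∀ i j, (g : Matrix (Fin n) (Fin n) ℂ) i l * conj ((g : Matrix (Fin n) (Fin n) ℂ) j l) =
      (g' : Matrix (Fin n) (Fin n) ℂ) i l * conj ((g' : Matrix (Fin n) (Fin n) ℂ) j l) :=
    fun i j => congrFun (congrFun hgg i) j
  have h1 : ∀ j, conj ((g : Matrix (Fin n) (Fin n) ℂ) j l) =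
      z * conj ((g' : Matrix (Fin n) (Fin n) ℂ) j l) := by
    intro j
    rw [hz, Finset.sum_mul]
    have h2 : ∀ p, conj ((g : Matrix (Fin n) (Fin n) ℂ) p l) *
        (g' : Matrix (Fin n) (Fin n) ℂ) p l * conj ((g' : Matrix (Fin n) (Fin n) ℂ) j l) =
        conj ((g : Matrix (Fin n) (Fin n) ℂ) p l) * (g : Matrix (Fin n) (Fin n) ℂ) p l *
          conj ((g : Matrix (Fin n) (Fin n) ℂ) j l) := by
      intro p
      rw [mul_assoc, ← e p j]; ring
    rw [Finset.sum_congr rfl fun p _ => h2 p, ← Finset.sum_mul, col_unit, if_pos rfl, one_mul]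
  have h2 : ∀ j, (g : Matrix (Fin n) (Fin n) ℂ) j l =
      conj z * (g' : Matrix (Fin n) (Fin n) ℂ) j l := by
    intro j
    have := congrArg conj (h1 j)
    rw [Complex.conj_conj, map_mul, Complex.conj_conj] at this
    exact this
  have hz1 : z * conj z = 1 := by
    have h3 := col_unit g l l
    rw [if_pos rfl] at h3
    have h4 : ∀ p, conj ((g : Matrix (Fin n) (Fin n) ℂ) p l) *
        (g : Matrix (Fin n) (Fin n) ℂ) p l =
        (z * conj z) * (conj ((g' : Matrix (Fin n) (Fin n) ℂ) p l) *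
          (g' : Matrix (Fin n) (Fin n) ℂ) p l) := by
      intro p
      rw [h1 p, h2 p]; ring
    rw [Finset.sum_congr rfl fun p _ => h4 p, ← Finset.mul_sum, col_unit, if_pos rfl,
      mul_one] at h3
    exact h3
  have h5 : ∀ j, (g' : Matrix (Fin n) (Fin n) ℂ) j l =
      z * (g : Matrix (Fin n) (Fin n) ℂ) j l := by
    intro j
    rw [h2 j, ← mul_assoc, hz1, one_mul]
  have hu : ∀ i, ((g⁻¹ * g' : UU n) : Matrix (Fin n) (Fin n) ℂ) i l = if i = l then z else 0 := by
    intro i
    rw [mat_mul]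
    have h6 : ∀ p, conj ((g : Matrix (Fin n) (Fin n) ℂ) p i) *
        (g' : Matrix (Fin n) (Fin n) ℂ) p l =
        z * (conj ((g : Matrix (Fin n) (Fin n) ℂ) p i) * (g : Matrix (Fin n) (Fin n) ℂ) p l) := by
      intro p
      rw [h5 p]; ring
    rw [Finset.sum_congr rfl fun p _ => h6 p, ← Finset.mul_sum, col_unit]
    split_ifs <;> simp
  have h7 := fix_of_col σ h l hB hl (g⁻¹ * g') z hz1 hu
  have h8 : σ.op g' h = σ.op g h := by
    have h9 : g' = g * (g⁻¹ * g') := by rw [mul_inv_cancel_left]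
    rw [h9, op_mul]
    change σ.op g (σ.op (g⁻¹ * g') h) = _
    rw [h7]
  rw [h8]

/-- **Row KSW** -/
theorem ksw : KSWStmt := by
  intro n σ h l hh hB hl
  by_contra hcon
  have hzero : ∀ (k : ℕ) (I J : Fin k → Fin n), arr σ h l k h I J = 0 := by
    intro k I J
    by_contra h1
    exact hcon ⟨k, I, J, h1⟩
  have : CompactSpace (Set.range (pj l : UU n → Matrix (Fin n) (Fin n) ℂ)) :=
    isCompact_iff_compactSpace.mp (isCompact_range (cont_pj l))
  let X := Set.range (pj l : UU n → Matrix (Fin n) (Fin n) ℂ)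
  let q : C(UU n, X) := ⟨fun g => ⟨pj l g, g, rfl⟩, (cont_pj l).subtype_mk _⟩
  have hqs : Function.Surjective q := by
    rintro ⟨_, g, rfl⟩
    exact ⟨g, rfl⟩
  have hq : Topology.IsQuotientMap q :=
    Topology.IsQuotientMap.of_surjective_continuous hqs q.continuous
  have hφc : Continuous fun g : UU n => (inner ℂ (σ.op g h) h : ℂ) :=
    ((continuous_op σ).clm_apply continuous_const).inner continuous_const
  let φ : C(UU n, ℂ) := ⟨fun g => (inner ℂ (σ.op g h) h : ℂ), hφc⟩
  have hfac : Function.FactorsThrough φ q := by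
    intro g g' hgg
    exact phi_factors σ h l hB hl g g' (congrArg Subtype.val hgg)
  let ψ : C(X, ℂ) := hq.lift φ hfac
  have hψ : ∀ g, ψ (q g) = φ g := by
    intro g
    exact congrArg (fun F : C(UU n, ℂ) => F g) (hq.lift_comp φ hfac)
  let e : Fin n → Fin n → C(X, ℂ) := fun i j =>
    ⟨fun x => x.1 i j, Continuous.matrix_elem continuous_subtype_val i j⟩
  have he : ∀ i j g, e i j (q g) = (g : Matrix (Fin n) (Fin n) ℂ) i l *
      conj ((g : Matrix (Fin n) (Fin n) ℂ) j l) := fun i j g => rfl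
  have hestar : ∀ i j, star (e i j) = e j i := by
    intro i j
    ext x
    obtain ⟨g, rfl⟩ := hqs x
    rw [ContinuousMap.star_apply, he, he]
    change conj (_ * conj _) = _
    rw [map_mul, Complex.conj_conj]; ring
  let S : Set C(X, ℂ) := {F | ∃ i j, F = e i j}
  let A : StarSubalgebra ℂ C(X, ℂ) := StarAlgebra.adjoin ℂ S
  have hSA : ∀ i j, e i j ∈ A := fun i j => StarAlgebra.subset_adjoin ℂ S ⟨i, j, rfl⟩
  have hsep : A.SeparatesPoints := by
    intro x y hxy
    by_contra h1
    apply hxy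
    apply Subtype.ext
    ext i j
    by_contra h2
    exact h1 ⟨e i j, ⟨e i j, hSA i j, rfl⟩, h2⟩
  have hint : ∀ F : C(X, ℂ), Integrable (fun g : UU n => φ g * F (q g)) (haarU n) := by
    intro F
    have hc : Continuous fun g : UU n => φ g * F (q g) :=
      φ.continuous.mul (F.continuous.comp q.continuous)
    exact hc.integrable_of_hasCompactSupport (HasCompactSupport.of_compactSpace _)
  let Λ : C(X, ℂ) → ℂ := fun F => ∫ g : UU n, φ g * F (q g) ∂(haarU n)
  have hΛadd : ∀ F G, Λ (F + G) = Λ F + Λ G := by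
    intro F G
    change ∫ g : UU n, φ g * (F (q g) + G (q g)) ∂(haarU n) = _
    simp only [mul_add]
    exact integral_add (hint F) (hint G)
  have hΛsmul : ∀ (r : ℂ) F, Λ (algebraMap ℂ C(X, ℂ) r * F) = r * Λ F := by
    intro r F
    change ∫ g : UU n, φ g * (r * F (q g)) ∂(haarU n) = r * ∫ g : UU n, φ g * F (q g) ∂(haarU n)
    rw [← integral_const_mul]
    congr 1
    ext1 g
    ring
  -- monomials
  let mo : (k : ℕ) → (Fin k → Fin n) → (Fin k → Fin n) → C(X, ℂ) := fun k I J =>
    ∏ s, e (J s) (I s)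
  let N : Set C(X, ℂ) := {F | ∀ (k : ℕ) (I J : Fin k → Fin n), Λ (F * mo k I J) = 0}
  have hN1 : (1 : C(X, ℂ)) ∈ N := by
    intro k I J
    rw [one_mul, ← hzero k I J]
    unfold arr
    change ∫ g : UU n, φ g * (mo k I J) (q g) ∂(haarU n) = _
    congr 1
    ext1 g
    change _ = φ g * _
    congr 1
    change (∏ s, e (J s) (I s)) (q g) = _
    rw [ContinuousMap.coe_prod, Finset.prod_apply]
    refine Finset.prod_congr rfl fun s _ => ?_
    rw [he]; ring
  have hNe : ∀ i j, ∀ F ∈ N, e i j * F ∈ N := by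
    intro i j F hF k I J
    have h1 := hF (k + 1) (Fin.cons j I) (Fin.cons i J)
    have h2 : mo (k + 1) (Fin.cons j I) (Fin.cons i J) = e i j * mo k I J := by
      change ∏ s, e ((Fin.cons i J : Fin (k + 1) → Fin n) s) ((Fin.cons j I : Fin (k + 1) → Fin n) s)
        = _
      rw [Fin.prod_univ_succ]
      rfl
    rw [h2] at h1
    have h3 : e i j * F * mo k I J = F * (e i j * mo k I J) := by ring
    rw [h3]
    exact h1
  have hNA : ∀ G ∈ A, ∀ F ∈ N, G * F ∈ N := by
    intro G hG
    have hG' : G ∈ Algebra.adjoin ℂ (S ∪ star S) := hG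
    refine Algebra.adjoin_induction (p := fun G _ => ∀ F ∈ N, G * F ∈ N) ?_ ?_ ?_ ?_ hG'
    · rintro x (⟨i, j, rfl⟩ | hx) F hF
      · exact hNe i j F hF
      · obtain ⟨i, j, hij⟩ := hx
        have hx2 : x = e j i := by
          rw [← hestar i j, ← hij, star_star]
        rw [hx2]
        exact hNe j i F hF
    · intro r F hF k I J
      rw [mul_assoc, hΛsmul, hF, mul_zero]
    · intro x y _ _ hx hy F hF k I J
      rw [add_mul, add_mul, hΛadd, hx F hF, hy F hF, add_zero]
    · intro x y _ _ hx hy F hF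
      rw [mul_assoc]
      exact hx _ (hy F hF)
  have hΛA : ∀ G ∈ A, Λ G = 0 := by
    intro G hG
    have h1 := hNA G hG 1 hN1 0 (fun s => s.elim0) (fun s => s.elim0)
    have h2 : mo 0 (fun s => s.elim0) (fun s => s.elim0) = 1 := by
      change ∏ s : Fin 0, _ = _
      exact Finset.prod_of_isEmpty _
    rw [h2, mul_one, mul_one] at h1
    exact h1
  have hSW := ContinuousMap.starSubalgebra_topologicalClosure_eq_top_of_separatesPoints A hsep
  have hcl : star ψ ∈ closure (A : Set C(X, ℂ)) := by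
    rw [← StarSubalgebra.topologicalClosure_coe, hSW]
    trivial
  -- the integral of the square
  have hpos : 0 < ∫ g : UU n, ‖φ g‖ ^ 2 ∂(haarU n) := by
    have : (haarU n).IsHaarMeasure := by unfold haarU; infer_instance
    have hc : Continuous fun g : UU n => ‖φ g‖ ^ 2 := φ.continuous.norm.pow 2
    refine hc.integral_pos_of_hasCompactSupport_nonneg_nonzero (x := 1)
      (HasCompactSupport.of_compactSpace _) (fun g => by positivity) ?_
    have h1 : φ 1 = inner ℂ h h := by
      change inner ℂ (σ.op 1 h) h = _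
      rw [op_one]; rfl
    rw [h1]
    have h2 : (inner ℂ h h : ℂ) ≠ 0 := inner_self_ne_zero.mpr hh
    exact pow_ne_zero 2 (norm_ne_zero_iff.mpr h2)
  have hΛψ : Λ (star ψ) = ((∫ g : UU n, ‖φ g‖ ^ 2 ∂(haarU n) : ℝ) : ℂ) := by
    rw [← integral_complex_ofReal]
    change ∫ g : UU n, φ g * (star ψ) (q g) ∂(haarU n) = _
    congr 1
    ext1 g
    rw [ContinuousMap.star_apply, hψ]
    change φ g * conj (φ g) = _
    rw [Complex.mul_conj, Complex.normSq_eq_norm_sq]
  have hle : ∀ ε : ℝ, 0 < ε → ∫ g : UU n, ‖φ g‖ ^ 2 ∂(haarU n) ≤ ‖φ‖ * ε := by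
    intro ε hε
    obtain ⟨G, hG, hdist⟩ := Metric.mem_closure_iff.mp hcl ε hε
    have h1 : Λ (star ψ) = ∫ g : UU n, φ g * ((star ψ) (q g) - G (q g)) ∂(haarU n) := by
      have h2 : ∀ g : UU n, φ g * ((star ψ) (q g) - G (q g)) =
          φ g * (star ψ) (q g) - φ g * G (q g) := fun g => by ring
      simp only [h2]
      rw [integral_sub (hint _) (hint _)]
      change _ = Λ (star ψ) - Λ G
      rw [hΛA G hG, sub_zero]
    have h3 : ‖Λ (star ψ)‖ ≤ ‖φ‖ * ε := by
      rw [h1]
      refine (norm_integral_le_of_norm_le_const (C := ‖φ‖ * ε) ?_).trans ?_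
      · refine Filter.Eventually.of_forall fun g => ?_
        rw [norm_mul]
        have h4 : ‖(star ψ) (q g) - G (q g)‖ ≤ ε := by
          have h5 := ContinuousMap.norm_coe_le_norm (star ψ - G) (q g)
          rw [dist_eq_norm] at hdist
          exact h5.trans hdist.le
        exact mul_le_mul (φ.norm_coe_le_norm g) h4 (norm_nonneg _) (norm_nonneg _)
      · rw [probReal_univ, mul_one]
    rw [hΛψ, Complex.norm_real, Real.norm_of_nonneg hpos.le] at h3
    exact h3
  have hfin := hle ((∫ g : UU n, ‖φ g‖ ^ 2 ∂(haarU n)) / (2 * (‖φ‖ + 1)))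
    (by have := norm_nonneg φ; positivity)
  have h0 := norm_nonneg φ
  have h1 : ‖φ‖ * ((∫ g : UU n, ‖φ g‖ ^ 2 ∂(haarU n)) / (2 * (‖φ‖ + 1))) ≤
      (∫ g : UU n, ‖φ g‖ ^ 2 ∂(haarU n)) / 2 := by
    rw [mul_div_assoc', div_le_div_iff₀ (by positivity) (by norm_num)]
    nlinarith
  linarith

end Pool.Agent.GRA.H86
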